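import Pool.Agent.H18.HX.Targets

/-!
# Dense orbits on arbitrary varieties: row FRY (Frobenius points on a hypersurface)
-/

set_option autoImplicit false

open MvPolynomial
open Pool.Agent.H12.ZD (pmap v O Res DenseOrbit NoInv)
open Pool.Agent.H18.HIT Pool.Agent.H18.HX

namespace Pool.Agent.H85.HX

theorem hom_iter {N : ℕ} {k : Type} [CommRing k] (F : Tup N k) (d : ℕ)
    (hF : ∀ i, (F i).IsHomogeneous d) (n : ℕ) :
    ∀ (e : ℕ) (g : Po N k), g.IsHomogeneous e → ∃ e', ((fun h => aeval F h)^[n] g).IsHomogeneous e' := by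
  induction n with
  | zero => intro e g hg; exact ⟨e, hg⟩
  | succ n ih =>
    intro e g hg
    rw [Function.iterate_succ_apply]
    exact ih (d * e) _ (hg.aeval F hF)

theorem hom_cc {N r d m : ℕ} {k : Type} [CommRing k] (P : Po (N + 1) k) (F : Tup (N + 1) k)
    (b : Po (N + 1) k) (hP : P.IsHomogeneous r) (hF : ∀ i, (F i).IsHomogeneous d)
    (hb : b.IsHomogeneous m) : ∃ γ, (cc P F b).IsHomogeneous γ := by
  unfold cc
  exact hom_iter F d hF (N + 1) _ _ (((hP.pderiv (i := 0)).aeval F hF).mul hb)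

theorem pf_FRY (hKEA : T_KEA) (hKEB : T_KEB) (hEPA : T_EPA) (hNIX : T_NIX) (hEPB : T_EPB) :
    T_FRY := by
  intro N r d m p t κ _ _ _ _ P F b D ht hr hP hM hF hb hd hrQ hPf hFf hbf hPF hdeg hnd
  obtain ⟨γ, hγ⟩ := hom_cc P F b hP hF hb
  have hA := hEPA N r p t κ P F hP hM hPf hPF
  have hrad : ep P F r (p ^ t) * b ∉ (fid P F (p ^ t)).radical := by
    intro hmem
    obtain ⟨M, hMm⟩ := hmem
    have h1 := hNIX N r (p ^ t) M κ P F (ep P F r (p ^ t) * b) hP hM hrQ
      (fun i => lt_of_le_of_lt (hF i).totalDegree_le hd) hMm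
    have h2 := hEPB N r p t κ P F b hP hM hPf hFf hbf hA h1
    have h3 := hKEA N r d (p ^ t) γ κ P F (cc P F b) hr hP hM hF hd hγ h2
    exact hnd (hKEB N r p t κ P F (cc P F b) D ht hr hP hM hdeg h3)
  rw [← vanishingIdeal_zeroLocus_eq_radical (K := κ)] at hrad
  rw [mem_vanishingIdeal_iff] at hrad
  push Not at hrad
  obtain ⟨x, hx, hx0⟩ := hrad
  rw [mem_zeroLocus_iff] at hx
  have hx' : ∀ q ∈ fid P F (p ^ t), eval x q = 0 := by
    intro q hq
    have h := hx q hq
    rw [aeval_eq_eval] at h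
    exact h
  have hx0' : eval x (ep P F r (p ^ t)) * eval x b ≠ 0 := by
    rw [aeval_eq_eval, map_mul] at hx0
    exact hx0
  have hb0 : eval x b ≠ 0 := right_ne_zero_of_mul hx0'
  have he0 : eval x (ep P F r (p ^ t)) ≠ 0 := left_ne_zero_of_mul hx0'
  refine ⟨x, hx' P (Ideal.subset_span (Set.mem_insert _ _)), ?_, hb0⟩
  intro i
  refine Fin.cases ?_ (fun j => ?_) i
  · have h := hx' _ hA
    rw [map_mul, map_sub, map_pow, eval_X] at h
    rcases mul_eq_zero.mp h with h | h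
    · exact absurd h he0
    · exact (sub_eq_zero.mp h).symm
  · have h := hx' (X j.succ ^ (p ^ t) - F j.succ)
      (Ideal.subset_span (Set.mem_insert_of_mem _ ⟨j, rfl⟩))
    rw [map_sub, map_pow, eval_X] at h
    exact (sub_eq_zero.mp h).symm

end Pool.Agent.H85.HX
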